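import Pool.Agent.Helper20.GT.Stm

/-!
# `S_AFF`, `S_POW`
-/

set_option autoImplicit false

open Finset Filter Topology
open scoped Classical

namespace Pool.Agent.Helper4.GT

open Pool.Agent.Helper20.GT

theorem SQ_mono {Q R : Set ℝ} (h : Q ⊆ R) (hR : SQ R) : SQ Q := by
  obtain ⟨θ, C, h0, h1, hC, hq, hM⟩ := hR
  refine ⟨θ, C, h0, h1, hC, fun q hq' => hq q (h hq'), fun M hM1 => ?_⟩
  obtain ⟨x, hx, hc⟩ := hM M hM1
  exact ⟨x, hx, fun q hq' => hc q (h hq')⟩

theorem floor_sub (b y : ℝ) (c : ℤ) (B : ℕ) (hB : |b| ≤ B) (hy : |y - c| ≤ 1) :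
    ⌊b * y⌋ - ⌊b * c⌋ ∈ Finset.Icc (-(B : ℤ)) B := by
  have h1 : |b * y - b * c| ≤ B := by
    rw [← mul_sub, abs_mul]
    calc |b| * |y - c| ≤ |b| * 1 := mul_le_mul_of_nonneg_left hy (abs_nonneg b)
      _ = |b| := mul_one _
      _ ≤ B := hB
  rw [abs_le] at h1
  have h2 : ⌊b * y⌋ ≤ ⌊b * c⌋ + B := by
    rw [← Int.floor_add_natCast]
    exact Int.floor_le_floor (by linarith)
  have h3 : ⌊b * c⌋ - B ≤ ⌊b * y⌋ := by
    rw [← Int.floor_sub_natCast]
    exact Int.floor_le_floor (by linarith)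
  rw [Finset.mem_Icc]
  constructor <;> linarith

theorem cells_aff (M : ℕ) (x : ℕ → ℝ) (q a b : ℝ) (B : ℕ) (hB : |b| ≤ B) :
    (cells M (fun d => b * x d - a * d) (a + b * q)).card ≤ (cells M x q).card * (2 * B + 1) := by
  have hsub : cells M (fun d => b * x d - a * d) (a + b * q) ⊆
      ((cells M x q) ×ˢ (Finset.Icc (-(B : ℤ)) B)).image (fun p => ⌊b * (p.1 : ℝ)⌋ + p.2) := by
    intro z hz
    unfold cells at hz
    obtain ⟨d, hd, rfl⟩ := Finset.mem_image.1 hz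
    refine Finset.mem_image.2 ⟨(⌊x d + q * d⌋, ⌊b * (x d + q * d)⌋ - ⌊b * (⌊x d + q * d⌋ : ℝ)⌋),
      Finset.mem_product.2 ⟨Finset.mem_image.2 ⟨d, hd, rfl⟩, ?_⟩, ?_⟩
    · apply floor_sub b _ _ B hB
      rw [abs_le]
      have h1 := Int.floor_le (x d + q * d)
      have h2 := Int.lt_floor_add_one (x d + q * d)
      constructor <;> linarith
    · simp only
      rw [add_sub_cancel]
      congr 1
      ring
  refine (Finset.card_le_card hsub).trans (Finset.card_image_le.trans ?_)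
  rw [Finset.card_product, Int.card_Icc]
  refine Nat.mul_le_mul_left _ ?_
  omega

theorem aff : S_AFF := by
  intro Q a b hQ
  obtain ⟨θ, C, h0, h1, hC, hq, hM⟩ := hQ
  have hb := abs_nonneg b
  have ha := abs_nonneg a
  set B : ℕ := ⌈|b|⌉₊ with hBdef
  have hB : |b| ≤ B := Nat.le_ceil _
  have hB2 : (B : ℝ) < |b| + 1 := Nat.ceil_lt_add_one hb
  refine ⟨θ, (2 * |b| + |a| + 3) * C, h0, h1, ?_, ?_, fun M hM1 => ?_⟩
  · nlinarith
  · rintro _ ⟨q, hqQ, rfl⟩
    have h2 := hq q hqQ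
    calc |a + b * q| ≤ |a| + |b * q| := abs_add_le _ _
      _ = |a| + |b| * |q| := by rw [abs_mul]
      _ ≤ |a| + |b| * C := by
        have := mul_le_mul_of_nonneg_left h2 hb
        linarith
      _ ≤ (2 * |b| + |a| + 3) * C := by nlinarith
  · obtain ⟨x, hx, hc⟩ := hM M hM1
    have hMp : (1 : ℝ) ≤ M := by exact_mod_cast hM1
    refine ⟨fun d => b * x d - a * d, fun d hd => ?_, ?_⟩
    · have h2 := hx d hd
      have h3 : (d : ℝ) ≤ M := by exact_mod_cast hd.le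
      have h4 : (0 : ℝ) ≤ d := Nat.cast_nonneg d
      have h5 : |b * x d| ≤ |b| * (C * M) := by
        rw [abs_mul]
        exact mul_le_mul_of_nonneg_left h2 hb
      have h6 : |a * (d : ℝ)| ≤ |a| * M := by
        rw [abs_mul, abs_of_nonneg h4]
        exact mul_le_mul_of_nonneg_left h3 ha
      have h7 : |a| * M ≤ |a| * C * M := by
        have : |a| * 1 ≤ |a| * C := mul_le_mul_of_nonneg_left hC ha
        nlinarith
      have h8 : 0 ≤ |b| * (C * M) := by positivity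
      have h9 : 0 ≤ C * M := by positivity
      calc |b * x d - a * d| ≤ |b * x d| + |a * (d : ℝ)| := abs_sub _ _
        _ ≤ |b| * (C * M) + |a| * C * M := by linarith
        _ ≤ (2 * |b| + |a| + 3) * C * M := by nlinarith
    · rintro _ ⟨q, hqQ, rfl⟩
      have h2 := hc q hqQ
      have h3 : ((cells M (fun d => b * x d - a * d) (a + b * q)).card : ℝ) ≤
          (cells M x q).card * (2 * B + 1) := by
        exact_mod_cast cells_aff M x q a b B hB
      refine h3.trans ?_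
      have h4 : (0 : ℝ) ≤ (M : ℝ) ^ θ := by positivity
      calc ((cells M x q).card : ℝ) * (2 * B + 1) ≤ (C * (M : ℝ) ^ θ) * (2 * |b| + |a| + 3) := by
            apply mul_le_mul h2 (by linarith) (by positivity) (by positivity)
        _ = (2 * |b| + |a| + 3) * C * (M : ℝ) ^ θ := by ring

theorem pow' : S_POW := by
  intro hA hU hB L hL
  obtain ⟨s, hs⟩ := pow_unbounded_of_one_lt (5 / 2 : ℝ) hL
  have hs0 : 0 < s := by
    rcases Nat.eq_zero_or_pos s with h | h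
    · rw [h, pow_zero] at hs
      norm_num at hs
    · exact h
  have hbase := hB (L ^ s) hs
  have key : ∀ n : ℕ, SQ {t | ∃ i < n, ∃ u ∈ base (L ^ s), t = 0 + (1 / L ^ i) * u} := by
    intro n
    induction n with
    | zero => exact SQ_mono (by rintro t ⟨i, hi, -⟩; omega) hbase
    | succ n ih =>
      refine SQ_mono ?_ (hU _ _ ih (hA (base (L ^ s)) 0 (1 / L ^ n) hbase))
      rintro t ⟨i, hi, u, hu, rfl⟩
      rcases Nat.lt_succ_iff_lt_or_eq.1 hi with h | h
      · exact Or.inl ⟨i, h, u, hu, rfl⟩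
      · subst h
        exact Or.inr ⟨u, hu, rfl⟩
  refine SQ_mono ?_ (key s)
  have hpow : ∀ j : ℕ, (1 : ℝ) / L ^ j = 0 + (1 / L ^ (j % s)) * (1 / (L ^ s) ^ (j / s)) := by
    intro j
    rw [zero_add, ← pow_mul, div_mul_div_comm, one_mul, ← pow_add, Nat.mod_add_div]
  rintro t (rfl | ⟨j, rfl | rfl⟩)
  · exact ⟨0, hs0, 0, Or.inl rfl, by simp⟩
  · exact ⟨j % s, Nat.mod_lt _ hs0, 1 / (L ^ s) ^ (j / s), Or.inr ⟨j / s, Or.inl rfl⟩, hpow j⟩
  · refine ⟨j % s, Nat.mod_lt _ hs0, -(1 / (L ^ s) ^ (j / s)), Or.inr ⟨j / s, Or.inr rfl⟩, ?_⟩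
    rw [hpow j]
    ring

end Pool.Agent.Helper4.GT
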